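import Mathlib
import Pool.Agent.H300.JN.Dim
import Pool.Agent.H300.JN.Wre

/-!
# Universal `p`-groups for groups of exponent `p` and small class

Fix a prime `p` and functions `c, k : ℕ → ℕ`. A restricted filtration of length `c` of a group is a decreasing
sequence of subgroups `H 1 ≥ H 2 ≥ …`, `H 1` the whole group, `[H i, H j] ≤ H (i + j)`, `(H i) ^ p ⊆ H (p i)`,
`H (c + 1) = 1`. For groups of exponent `p` and nilpotency class at most `c` the lower central series is one.

Let `f(n)` be the least `m` such that some group of order `p ^ m` contains every group of order `p ^ n` which has a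
subgroup of index at most `p ^ k(n)` with a restricted filtration of length `c(n)`. Then
`f(n) < p ^ k(n) (C ^ 2 + 1)`, `C` the binomial coefficient `n + c(n)` over `c(n)`. So `f` is polynomially bounded if
`c` and `k` are bounded, and `f` grows slower than exponentially if `c(n) / n → 0` and `k(n) / n → 0`.

Proof. Let `E_r` be the ideal of the group algebra over the field of `p` elements which is spanned by the products
of factors `h - 1`, `h ∈ H i` of weight `i`, of total weight at least `r`. If `x - 1 ∈ E_(c+1)`, then `x = 1`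
(Jennings, Lazard; proved here by induction: if `P = N⟨t⟩` with `N` normal of index `p`, `t` of maximal weight `w`
outside of `N`, then `E_r(P)` is contained in `⨁_{j<p} E_(r - j w)(N) (t - 1)^j`). So the quotient by `E_(c+1)` is a
faithful module; by the same induction its dimension is at most the binomial coefficient `n + c` over `c`.
Small index: Sylow subgroup of a wreath product.
-/

set_option autoImplicit false

open Filter Topology

open scoped commutatorElement

namespace Pool.Agent.Results.MP_aa96c4_al.BoundedClass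

/-- `P` has a restricted filtration of length `c`. -/
def Restricted (p c : ℕ) (P : Type) [Group P] : Prop :=
  ∃ H : ℕ → Subgroup P, H 1 = ⊤ ∧ Antitone H ∧ (∀ i j, ⁅H i, H j⁆ ≤ H (i + j)) ∧
    (∀ i, ∀ x ∈ H i, x ^ p ∈ H (p * i)) ∧ H (c + 1) = ⊥

/-- `[γ_{a+1}, γ_{b+1}] ≤ γ_{a+b+2}` -/
theorem lcs_comm {P : Type} [Group P] (b : ℕ) : ∀ a : ℕ,
    ⁅(⊤ : Subgroup P).lowerCentralSeries a, (⊤ : Subgroup P).lowerCentralSeries b⁆ ≤
      (⊤ : Subgroup P).lowerCentralSeries (a + b + 1) := by
  induction b with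
  | zero => intro a; exact le_of_eq rfl
  | succ b ih =>
    intro a
    let γ := (⊤ : Subgroup P).lowerCentralSeries
    let N := γ (a + (b + 1) + 1)
    let f := QuotientGroup.mk' N
    have hle : ∀ K : Subgroup P, K ≤ N → K.map f = ⊥ := by
      intro K hK
      rw [Subgroup.map_eq_bot_iff, QuotientGroup.ker_mk']
      exact hK
    have h1 : ⁅⁅(⊤ : Subgroup P).map f, (γ a).map f⁆, (γ b).map f⁆ = ⊥ := by
      rw [← Subgroup.map_commutator, ← Subgroup.map_commutator]
      apply hle
      have h2 := ih (a + 1)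
      rw [Subgroup.commutator_comm ⊤ (γ a)]
      have h3 : a + 1 + b + 1 = a + (b + 1) + 1 := by omega
      rw [h3] at h2
      exact h2
    have h2 : ⁅⁅(γ a).map f, (γ b).map f⁆, (⊤ : Subgroup P).map f⁆ = ⊥ := by
      rw [← Subgroup.map_commutator, ← Subgroup.map_commutator]
      apply hle
      exact Subgroup.commutator_mono (ih a) le_rfl
    have h3 := Subgroup.commutator_commutator_eq_bot_of_rotate h1 h2
    rw [← Subgroup.map_commutator, ← Subgroup.map_commutator, Subgroup.map_eq_bot_iff,
      QuotientGroup.ker_mk'] at h3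
    rw [Subgroup.commutator_comm]
    exact h3

/-- groups of exponent `p` and class at most `c` -/
theorem restricted_of_exponent {p c : ℕ} {P : Type} [Group P] (hx : ∀ x : P, x ^ p = 1)
    (hc : (⊤ : Subgroup P).lowerCentralSeries c = ⊥) : Restricted p c P := by
  refine ⟨fun i => (⊤ : Subgroup P).lowerCentralSeries (i - 1), rfl, ?_, ?_, ?_, hc⟩
  · intro i j hij
    exact (⊤ : Subgroup P).lowerCentralSeries_antitone (by omega)
  · intro i j
    exact (lcs_comm (j - 1) (i - 1)).trans ((⊤ : Subgroup P).lowerCentralSeries_antitone (by omega))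
  · intro i x _
    rw [hx x]
    exact one_mem _

theorem fil {p c : ℕ} {P : Type} [Group P] (h : Restricted p c P) :
    Nonempty (Pool.Agent.H300.JN.Fil P p c) := by
  obtain ⟨H, h1, h2, h3, h4, h5⟩ := h
  exact ⟨⟨H, h1, h2, fun i j x hx y hy => h3 i j (Subgroup.commutator_mem_commutator hx hy), h4, h5⟩⟩

theorem restricted_of_injective {p c : ℕ} (Q Q' : Type) [Group Q] [Group Q'] (f : Q' →* Q)
    (hf : Function.Injective f) (h : Restricted p c Q) : Restricted p c Q' := by
  obtain ⟨H, h1, h2, h3, h4, h5⟩ := h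
  refine ⟨fun i => (H i).comap f, ?_, fun i j hij => Subgroup.comap_mono (h2 hij), ?_, ?_, ?_⟩
  · change (H 1).comap f = ⊤
    rw [h1, Subgroup.comap_top]
  · intro i j
    rw [Subgroup.commutator_le]
    intro x hx y hy
    rw [Subgroup.mem_comap, map_commutatorElement]
    exact h3 i j (Subgroup.commutator_mem_commutator hx hy)
  · intro i x hx
    rw [Subgroup.mem_comap, map_pow]
    exact h4 i _ hx
  · change (H (c + 1)).comap f = ⊥
    rw [h5]
    exact (MonoidHom.ker_eq_bot_iff f).mpr hf

/-- **Theorem.** See the header. -/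
theorem result (p : ℕ) (hp : p.Prime) :
    (∀ (c : ℕ) (P : Type) [Group P], (∀ x : P, x ^ p = 1) →
      (⊤ : Subgroup P).lowerCentralSeries c = ⊥ → Restricted p c P) ∧
    ∀ c k : ℕ → ℕ, ∃ f : ℕ → ℕ,
      (∀ n : ℕ, IsLeast
        {m : ℕ | ∃ (U : Type) (_ : Group U), Nat.card U = p ^ m ∧
          ∀ (P : Type) [Group P], Nat.card P = p ^ n →
            (∃ H : Subgroup P, H.index ≤ p ^ k n ∧ Restricted p (c n) H) →
            ∃ φ : P →* U, Function.Injective φ} (f n)) ∧
      (∀ n : ℕ, f n < p ^ k n * (((n + c n).choose (c n)) ^ 2 + 1)) ∧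
      (Tendsto (fun n : ℕ => (c n : ℝ) / n) atTop (𝓝 0) →
        Tendsto (fun n : ℕ => (k n : ℝ) / n) atTop (𝓝 0) →
        ∀ b : ℝ, 1 < b → Tendsto (fun n : ℕ => (f n : ℝ) / b ^ n) atTop (𝓝 0)) := by
  classical
  refine ⟨fun c P _ hx hc => restricted_of_exponent hx hc, fun c k => ?_⟩
  have hne : ∀ n : ℕ, ∃ m : ℕ, m ∈ {m : ℕ | ∃ (U : Type) (_ : Group U), Nat.card U = p ^ m ∧
          ∀ (P : Type) [Group P], Nat.card P = p ^ n →
            (∃ H : Subgroup P, H.index ≤ p ^ k n ∧ Restricted p (c n) H) →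
            ∃ φ : P →* U, Function.Injective φ} ∧ m < p ^ k n * (((n + c n).choose (c n)) ^ 2 + 1) := by
    intro n
    obtain ⟨m, U, hG, hU, hm, h⟩ := Pool.Agent.H300.JN.wreath hp n (k n) (((n + c n).choose (c n)) ^ 2)
      (fun Q [Group Q] => Restricted p (c n) Q) (fun Q Q' _ _ f hf hQ => restricted_of_injective Q Q' f hf hQ)
      (fun j hj => by
        obtain ⟨e, U, hG, hU, he, h⟩ := Pool.Agent.H300.JN.universal' hp j (c n)
        exact ⟨e, U, hG, hU, he.trans (Nat.pow_le_pow_left (Nat.choose_le_choose _ (by omega)) _),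
          fun P _ hP hR => h P hP (fil hR)⟩)
    exact ⟨m, ⟨U, hG, hU, h⟩, hm⟩
  have hex : ∀ n : ℕ, ∃ m : ℕ, m ∈ {m : ℕ | ∃ (U : Type) (_ : Group U), Nat.card U = p ^ m ∧
          ∀ (P : Type) [Group P], Nat.card P = p ^ n →
            (∃ H : Subgroup P, H.index ≤ p ^ k n ∧ Restricted p (c n) H) →
            ∃ φ : P →* U, Function.Injective φ} :=
    fun n => ⟨(hne n).choose, (hne n).choose_spec.1⟩
  have hup : ∀ n, Nat.find (hex n) < p ^ k n * (((n + c n).choose (c n)) ^ 2 + 1) := by
    intro n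
    obtain ⟨m, hm, hlt⟩ := hne n
    exact (Nat.find_min' (hex n) hm).trans_lt hlt
  refine ⟨fun n => Nat.find (hex n), fun n => ⟨Nat.find_spec (hex n), fun m hm => Nat.find_min' (hex n) hm⟩,
    hup, ?_⟩
  intro hc hk b hb
  have hlb : 0 < Real.log b := Real.log_pos hb
  have hb0 : (0 : ℝ) < b := by linarith
  have hp1 : (1 : ℝ) < p := by exact_mod_cast hp.one_lt
  have hlp : 0 < Real.log p := Real.log_pos hp1
  have hlim : Tendsto (fun n : ℕ => 2 * Real.exp (-(Real.log b / 4)) ^ n) atTop (𝓝 0) := by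
    have := (tendsto_pow_atTop_nhds_zero_of_lt_one (Real.exp_pos (-(Real.log b / 4))).le (by
      rw [Real.exp_lt_one_iff]; linarith)).const_mul 2
    simpa using this
  refine squeeze_zero' (Eventually.of_forall fun n => by positivity) ?_ hlim
  obtain ⟨x, hx0, hx1, hx2⟩ : ∃ x : ℝ, 0 < x ∧ x < 1 ∧ x ≤ Real.log b / 16 :=
    ⟨min (1 / 2) (Real.log b / 16), by positivity, (min_le_left _ _).trans_lt (by norm_num), min_le_right _ _⟩
  have hlx : 0 < -Real.log x := by
    have := Real.log_neg hx0 hx1
    linarith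
  have hlx0 : Real.log x ≠ 0 := (Real.log_neg hx0 hx1).ne
  have hev := hc.eventually (gt_mem_nhds (show (0 : ℝ) < Real.log b / (8 * (-Real.log x)) by positivity))
  have hev1 := hc.eventually (gt_mem_nhds (show (0 : ℝ) < 1 by norm_num))
  have hev' := hk.eventually (gt_mem_nhds (show (0 : ℝ) < Real.log b / (4 * Real.log p) by positivity))
  filter_upwards [hev, hev1, hev', eventually_ge_atTop 1] with n hn hnn hn' hn1
  have hn0 : (0 : ℝ) < n := by exact_mod_cast hn1
  have h1 : (c n : ℝ) * (-Real.log x) ≤ Real.log b / 8 * n := by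
    rw [div_lt_iff₀ hn0] at hn
    have := mul_le_mul_of_nonneg_right hn.le hlx.le
    refine this.trans (le_of_eq ?_)
    field_simp
  have h1c : (c n : ℝ) ≤ n := by
    rw [div_lt_iff₀ hn0, one_mul] at hnn
    exact hnn.le
  have h1' : (k n : ℝ) * Real.log p ≤ Real.log b / 4 * n := by
    rw [div_lt_iff₀ hn0] at hn'
    have := mul_le_mul_of_nonneg_right hn'.le hlp.le
    refine this.trans (le_of_eq ?_)
    field_simp
  have h2 : ((Nat.find (hex n) : ℕ) : ℝ) ≤ 2 * Real.exp (Real.log b * 3 / 4 * n) := by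
    have h3 : ((Nat.find (hex n) : ℕ) : ℝ) ≤
        (p : ℝ) ^ k n * ((((n + c n).choose (c n) : ℕ) : ℝ) ^ 2 + 1) := by
      exact_mod_cast (hup n).le
    have h4' : (p : ℝ) ^ k n = Real.exp (k n * Real.log p) := by
      rw [Real.exp_nat_mul, Real.exp_log (by linarith)]
    have h5 : (1 : ℝ) ≤ Real.exp (Real.log b / 2 * n) := Real.one_le_exp (by positivity)
    have h6 : (((n + c n).choose (c n) : ℕ) : ℝ) ^ 2 ≤ Real.exp (Real.log b / 2 * n) := by
      have h7 := Pool.Agent.H300.JN.choose_le_exp n (c n) hx0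
      have h8 : (c n : ℝ) * (-Real.log x) + ((n : ℝ) + c n) * x ≤ Real.log b / 4 * n := by
        have h9 : ((n : ℝ) + c n) * x ≤ (n + n) * (Real.log b / 16) := by gcongr
        nlinarith
      calc (((n + c n).choose (c n) : ℕ) : ℝ) ^ 2 ≤ (Real.exp (Real.log b / 4 * n)) ^ 2 := by
            gcongr
            exact h7.trans (Real.exp_le_exp.mpr h8)
        _ = Real.exp (Real.log b / 2 * n) := by
          rw [← Real.exp_nat_mul]
          congr 1
          push_cast
          ring
    calc ((Nat.find (hex n) : ℕ) : ℝ) ≤ (p : ℝ) ^ k n * ((((n + c n).choose (c n) : ℕ) : ℝ) ^ 2 + 1) := h3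
      _ ≤ Real.exp (Real.log b / 4 * n) * (Real.exp (Real.log b / 2 * n) + Real.exp (Real.log b / 2 * n)) := by
        rw [h4']
        gcongr
      _ = 2 * (Real.exp (Real.log b / 4 * n) * Real.exp (Real.log b / 2 * n)) := by ring
      _ = 2 * Real.exp (Real.log b * 3 / 4 * n) := by
        rw [← Real.exp_add]
        congr 2
        ring
  have h5 : b ^ n = Real.exp (Real.log b * n) := by
    rw [mul_comm, Real.exp_nat_mul, Real.exp_log hb0]
  rw [h5, ← Real.exp_nat_mul, div_le_iff₀ (Real.exp_pos _), mul_assoc, ← Real.exp_add]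
  refine h2.trans (le_of_eq ?_)
  congr 2
  ring

end Pool.Agent.Results.MP_aa96c4_al.BoundedClass
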