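import Mathlib
import Pool.Agent.H300.UG.Wr
import Pool.Agent.H300.UG.Low

/-!
# Universal `p`-groups for the groups with a large subgroup of class at most two

Fix a prime `p` and `k ≥ 0`. Let `f(n)` be the least `m` such that some group of order `p ^ m` contains every group
of order `p ^ n` which has a subgroup of index at most `p ^ k` and of nilpotency class at most two (`k = 0`: the
groups of class at most two). Then `f` grows polynomially:

`⌊n/2⌋ (⌊n/2⌋ - 3) / 2 ≤ f(n) < p ^ k (n ^ 3 + 3 n ^ 2 + 1)`.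

The groups of class two make up all groups of order `p ^ n` in the logarithmic scale (Higman, Sims), and by the
theory of coclass the groups of bounded coclass have a subgroup of class at most two of bounded index; so the faster
than polynomial growth asked for in Q1 can come neither from the first nor from the second kind of groups.

Proof of the upper bound. Let `P` have class at most two, `Z` its centre, `Q = P / Z`. For each of `n` characters
`l` of `Z` which separate the points, the alternating form `l ⁅x, y⁆` on `Q` is `T(x, y) / T(y, x)` with `T`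
bimultiplicative; since roots of unity are an injective group, there is a function `δ` on `P` which extends `l` with
`δ(x y) = δ(x) δ(y) T(x, y)`. `Q` is a retract of the product `A` of `⌊n/b⌋` copies of the cyclic group of order
`p ^ b`, `b ≤ n`. So `P` is embedded in the group of all `(m, b, a)`, `m ∈ μ ^ n`, `b ∈ Hom(A, ℂˣ) ^ n`, `a ∈ A`,
by `x ↦ (δ(x), T(·, x), x Z)`. Larger `k`: Sylow subgroup of a wreath product.
-/

set_option autoImplicit false

open Filter Topology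

open scoped commutatorElement

namespace Pool.Agent.Results.MP_aa96c4_al.ClassTwo

/-- **Theorem.** See the header. -/
theorem result (p : ℕ) (hp : p.Prime) (k : ℕ) :
    ∃ f : ℕ → ℕ,
      (∀ n : ℕ, IsLeast
        {m : ℕ | ∃ (U : Type) (_ : Group U), Nat.card U = p ^ m ∧
          ∀ (P : Type) [Group P], Nat.card P = p ^ n →
            (∃ H : Subgroup P, H.index ≤ p ^ k ∧ ∀ x ∈ H, ∀ y ∈ H, ∀ z ∈ H, ⁅⁅x, y⁆, z⁆ = 1) →
            ∃ φ : P →* U, Function.Injective φ} (f n)) ∧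
      (∀ n : ℕ, f n < p ^ k * (n ^ 3 + 3 * n ^ 2 + 1)) ∧
      (∀ n : ℕ, (n / 2) * ((n / 2) - 3) ≤ 2 * f n) ∧
      (∀ a : ℝ, 3 < a → Tendsto (fun n : ℕ => (f n : ℝ) / (n : ℝ) ^ a) atTop (𝓝 0)) ∧
      (∀ a : ℝ, a < 2 → Tendsto (fun n : ℕ => (f n : ℝ) / (n : ℝ) ^ a) atTop atTop) := by
  classical
  have hne : ∀ n : ℕ, ∃ m : ℕ, m ∈ {m : ℕ | ∃ (U : Type) (_ : Group U), Nat.card U = p ^ m ∧
          ∀ (P : Type) [Group P], Nat.card P = p ^ n →
            (∃ H : Subgroup P, H.index ≤ p ^ k ∧ ∀ x ∈ H, ∀ y ∈ H, ∀ z ∈ H, ⁅⁅x, y⁆, z⁆ = 1) →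
            ∃ φ : P →* U, Function.Injective φ} ∧ m < p ^ k * (n ^ 3 + 3 * n ^ 2 + 1) := by
    intro n
    obtain ⟨m, U, hG, hU, hm, h⟩ := Pool.Agent.H300.UG.universal hp n k
    exact ⟨m, ⟨U, hG, hU, h⟩, hm⟩
  have hex : ∀ n : ℕ, ∃ m : ℕ, m ∈ {m : ℕ | ∃ (U : Type) (_ : Group U), Nat.card U = p ^ m ∧
          ∀ (P : Type) [Group P], Nat.card P = p ^ n →
            (∃ H : Subgroup P, H.index ≤ p ^ k ∧ ∀ x ∈ H, ∀ y ∈ H, ∀ z ∈ H, ⁅⁅x, y⁆, z⁆ = 1) →
            ∃ φ : P →* U, Function.Injective φ} := fun n => ⟨(hne n).choose, (hne n).choose_spec.1⟩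
  have hf : ∀ n, IsLeast {m : ℕ | ∃ (U : Type) (_ : Group U), Nat.card U = p ^ m ∧
          ∀ (P : Type) [Group P], Nat.card P = p ^ n →
            (∃ H : Subgroup P, H.index ≤ p ^ k ∧ ∀ x ∈ H, ∀ y ∈ H, ∀ z ∈ H, ⁅⁅x, y⁆, z⁆ = 1) →
            ∃ φ : P →* U, Function.Injective φ} (Nat.find (hex n)) :=
    fun n => ⟨Nat.find_spec (hex n), fun m hm => Nat.find_min' (hex n) hm⟩
  have hup : ∀ n, Nat.find (hex n) < p ^ k * (n ^ 3 + 3 * n ^ 2 + 1) := by
    intro n
    obtain ⟨m, hm, hlt⟩ := hne n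
    exact ((hf n).2 hm).trans_lt hlt
  have h1 : ∀ r s : ℕ, s ≤ r * (r - 1) / 2 →
      s * (r * (r - 1) / 2 - s) ≤ Nat.find (hex (r + s)) * r := by
    intro r s hs
    obtain ⟨U, _, hU, hall⟩ := (hf (r + s)).1
    refine Pool.Agent.H300.UG.count' p hp r s _ hs U hU fun P _ hP hcl => hall P hP ⟨⊤, ?_, ?_⟩
    · rw [Subgroup.index_top]
      exact Nat.one_le_pow _ _ hp.pos
    · intro x _ y _ z _
      exact hcl x y z
  have hlow := Pool.Agent.H300.UG.lower (fun n => Nat.find (hex n)) h1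
  refine ⟨fun n => Nat.find (hex n), hf, hup, hlow, ?_, ?_⟩
  · intro a ha
    have hlim : Tendsto (fun n : ℕ => (5 * (p : ℝ) ^ k) * (n : ℝ) ^ (-(a - 3))) atTop (𝓝 0) := by
      have := ((tendsto_rpow_neg_atTop (y := a - 3) (by linarith)).comp
        tendsto_natCast_atTop_atTop).const_mul (5 * (p : ℝ) ^ k)
      simpa using this
    refine squeeze_zero' (Eventually.of_forall fun n => by positivity) ?_ hlim
    filter_upwards [eventually_ge_atTop 1] with n hn
    have hn0 : (0 : ℝ) < n := by exact_mod_cast hn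
    have hn1 : (1 : ℝ) ≤ n := by exact_mod_cast hn
    have h2 : ((Nat.find (hex n) : ℕ) : ℝ) ≤ (p : ℝ) ^ k * ((n : ℝ) ^ 3 + 3 * (n : ℝ) ^ 2 + 1) := by
      exact_mod_cast (hup n).le
    have h3 : (n : ℝ) ^ 3 + 3 * (n : ℝ) ^ 2 + 1 ≤ 5 * (n : ℝ) ^ 3 := by
      nlinarith [mul_nonneg (sq_nonneg (n : ℝ)) (sub_nonneg.mpr hn1), one_le_pow₀ hn1 (n := 3)]
    have h4 : (n : ℝ) ^ (-(a - 3)) = (n : ℝ) ^ 3 / (n : ℝ) ^ a := by
      rw [show -(a - 3) = (3 : ℕ) - a by push_cast; ring, Real.rpow_sub hn0, Real.rpow_natCast]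
    rw [h4]
    calc ((Nat.find (hex n) : ℕ) : ℝ) / (n : ℝ) ^ a
        ≤ ((p : ℝ) ^ k * (5 * (n : ℝ) ^ 3)) / (n : ℝ) ^ a := by
          gcongr
          exact h2.trans (by gcongr)
      _ = _ := by ring
  · intro a ha
    have hlim : Tendsto (fun n : ℕ => (1 / 200 : ℝ) * (n : ℝ) ^ (2 - a)) atTop atTop :=
      Tendsto.const_mul_atTop (by norm_num) ((tendsto_rpow_atTop (by linarith)).comp tendsto_natCast_atTop_atTop)
    refine tendsto_atTop_mono' atTop ?_ hlim
    filter_upwards [eventually_ge_atTop 16] with n hn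
    have hn0 : (0 : ℝ) < n := by exact_mod_cast (by omega : 0 < n)
    have h6 : (n : ℝ) ^ 2 / 200 ≤ (Nat.find (hex n) : ℕ) := by
      have h7 := hlow n
      obtain ⟨t, ht⟩ : ∃ t, n / 2 = t + 3 := ⟨n / 2 - 3, by omega⟩
      rw [ht, Nat.add_sub_cancel] at h7
      have h8 : n ≤ 2 * (t + 3) + 1 := by omega
      have h9 : t * t ≤ 2 * Nat.find (hex n) := (Nat.mul_le_mul_right _ (by omega)).trans h7
      have h10 : (t : ℝ) * t ≤ 2 * (Nat.find (hex n) : ℕ) := by exact_mod_cast h9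
      have h11 : (n : ℝ) ≤ 2 * (t + 3) + 1 := by exact_mod_cast h8
      have h12 : (n : ℝ) / 4 ≤ t := by
        have h13 : (16 : ℝ) ≤ n := by exact_mod_cast hn
        linarith
      have h14 : ((n : ℝ) / 4) ^ 2 ≤ (t : ℝ) ^ 2 := by gcongr
      nlinarith
    rw [Real.rpow_sub hn0, Real.rpow_two]
    calc (1 / 200 : ℝ) * ((n : ℝ) ^ 2 / (n : ℝ) ^ a) = ((n : ℝ) ^ 2 / 200) / (n : ℝ) ^ a := by ring
      _ ≤ _ := by gcongr

end Pool.Agent.Results.MP_aa96c4_al.ClassTwo
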